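import Pool.Agent.H32.CL.Main

/-!
# Exact cancellation and the signs of long twist regions

`O : Sites k` (starting library) is a link diagram (planar or not) with `k` open boxes and any crossings
outside them; `O.Connected`: it is connected, each box being one piece; `O.fill n`, `n ∈ ℤ^k`: the box `e` is
filled with a row of `|n e|` crossings of the kind given by the sign of `n e` (two vertical strands twisted
around each other); `O.state S`: the boxes of `S` are filled with two vertical strands without crossings, the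
other boxes are cut (a cap and a cup); `O.cut = O.state ∅`.  `pcs O R` is the number of connected pieces of the
diagram in which exactly the boxes of `R` are cut.  `SpanAtMost s D`: the normalised bracket `D.fPoly` is
supported in an interval of length `4 s`: the span of the Jones polynomial is at most `s`.

Definitions of this project (`Pool.Agent.H32.CL`), `d = -A^2-A^{-2}`:

* `W O K = ∑_{S ⊆ K} (-1)^{|K \ S|} d^{|S|} ⟨O.state S⟩`, the state polynomial of a set `K` of boxes: the boxes
  outside `K` are cut and every box of `K` contains `d` times the second Jones-Wenzl projector.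
* `Far O X n 𝓒`: `2 |n(K) - n(K')| > X` for all `K ∈ 𝓒`, `K' ∉ 𝓒` with `W O K ≠ 0`, `W O K' ≠ 0`, where
  `n(K) = ∑ e ∈ K, n e`: no member of the family `𝓒` is near a set outside `𝓒`.
* The graph of the pieces: its vertices are the connected pieces of `O.cut`, its edges are the boxes.
  `Cyc O K`: `K` is a union of cycles of this graph (in the diagram in which exactly the boxes outside `K` are
  cut, cutting one more box never increases the number of pieces); `betti O K`: its first Betti number with
  only the edges in `K`; `wt O K`: the sum of `(-1)^{|K \ F|}` over the forests `F ⊆ K`.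
* `Adm O`: there is a box, `O` is connected and closed, the pieces of `O.cut` have nonzero determinants (the
  bracket of `O.cut` is not divisible by `d^q` for the number `q` of its pieces), and the graph has a cycle.

Proof.  `d^k ⟨O.fill n⟩` is a signed sum of `A^{4 n(K)} W O K` (starting library).  If its support is short, it
changes by a unit when the exponents of a family which is far from the others are shifted by `t`, so that
`(x^t - 1) C = (x^{y(t)} - 1) L` for the sum `C` of the family and the whole sum `L`, `x = - A^{-4}`.  At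
`A = e^{πi/3}`, where `d = 1`, all brackets are `1` and all `W O K`, `K ≠ ∅`, vanish; comparing `t = 1` and `t = 2`
one gets `C = 0`.  Near `A = e^{πi/4}`, where `d = 0`, the polynomial `W O K` is `d^(q-1)` times a polynomial
whose value is `wt O K` times a nonzero number which does not depend on `K`, and the sign of `wt O K` is found by
deletion and contraction.
-/

set_option autoImplicit false

namespace Pool.Agent.Results.MP_42db45_gt.SignedTwists

open Finset LaurentPolynomial Pool.Agent.H891R2.Jones Pool.Agent.H891R2.MT Pool.Agent.H891R2.SI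
open Pool.Agent.Q99.ET (SpanAtMost pcs)
open Pool.Agent.H32.CL

/-- **Theorem.** Let `D` be the diagram `O.fill n`, with any directions, `c` the number of crossings outside
the `k` boxes, `s ≥ 0` and `X = 3 c + 6 k + 2 s`.

(1) Exact cancellation. If the Jones polynomial of `D` has span at most `s`, then
`∑ K ∈ 𝓒, (-1)^{n(K)} A^{4 n(K)} W O K = 0` for every family `𝓒 ∌ ∅` which is far from the other sets.

(2) Hence the span is larger than `s` if some set `K ≠ ∅` with `W O K ≠ 0` is isolated; for instance if all
boxes are long, `2 |n e| > X`, and the set `K` of the negative boxes (or of the positive boxes) is not empty and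
`W O K ≠ 0`; also if `∅` is isolated and `⟨O.cut⟩` is not divisible by `d^k`.

(3) If moreover `2 |n e| > 3 c + 4 k` for all `e` and `W O K ≠ 0` for the set of the negative boxes and for the
set of the positive boxes, then the span is at least `∑ |n e| - (3 c + 6 k) / 2`: the number of crossings of `D`
minus `(5 c + 6 k) / 2`.

(4) Let `O` be admissible. Then `W O K ≠ 0` exactly for the unions of cycles `K` of the graph of the pieces, and
the sign of `wt O K` is `(-1)^{betti O K}` for them. If the span is at most `s`, then the sum of the weights of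
every family which is far from the other unions of cycles is zero; if there is a union of cycles in the family,
then there are some with even and some with odd Betti number.

(5) Let `O` be admissible. If all boxes are long, `2 |n e| > X`, and the negative boxes form a union of cycles
(for instance if there are none), or the positive boxes do, or if `2 |n(K)| > X` for every union of cycles
`K ≠ ∅`, then the span is larger than `s`, and `D` does not have the Jones polynomial of an unlink with at most
`s + 1` components; in particular (`s = 0`) `f ≠ 1`. -/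
theorem result {k : ℕ} (hk : 0 < k) (O : Sites k) (hO : O.Connected) (s : ℕ) (n : Fin k → ℤ) 
    (D : Diagram (O.P ⊕ Ribbon.Pt n)) (hD : Orients D (O.fill n)) (X : ℤ) 
    (hX : X = 3 * O.crossings.length + 6 * k + 2 * s) (N P : Finset (Fin k)) 
    -- the negative boxes and the positive boxes
    (hN : N = Finset.univ.filter (fun e => n e < 0)) (hP : P = Finset.univ.filter (fun e => 0 < n e)) :
    -- (1)
    (SpanAtMost s D → ∀ 𝓒 : Finset (Finset (Fin k)), Far O X n 𝓒 → ∅ ∉ 𝓒 → 
      ∑ K ∈ 𝓒, ((-1) ^ (∑ e ∈ K, n e).natAbs * T (4 * ∑ e ∈ K, n e)) * W O K = 0) ∧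
    -- (2)
    (((∃ K, K ≠ ∅ ∧ W O K ≠ 0 ∧ 
          ∀ K', K' ≠ K → W O K' ≠ 0 → X < 2 * |∑ e ∈ K, n e - ∑ e ∈ K', n e|) ∨ 
        ((∀ e, X < 2 * |n e|) ∧ ((N ≠ ∅ ∧ W O N ≠ 0) ∨ (P ≠ ∅ ∧ W O P ≠ 0))) ∨ 
        ((∀ K, K ≠ ∅ → W O K ≠ 0 → X < 2 * |∑ e ∈ K, n e|) ∧ 
          ¬ (-T 2 - T (-2)) ^ k ∣ O.cut.std.bracket)) → 
      ¬ SpanAtMost s D ∧ ∀ u ≤ s + 1, D.fPoly ≠ (-T 2 - T (-2)) ^ (u - 1)) ∧
    -- (3)
    ((∀ e, (3 * O.crossings.length + 4 * k : ℤ) < 2 * |n e|) → W O N ≠ 0 → W O P ≠ 0 → 
      SpanAtMost s D → 2 * ∑ e, |n e| ≤ X) ∧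
    (Adm O → 
      -- (4)
      ((∀ K, W O K ≠ 0 ↔ Cyc O K) ∧ (∀ K, Cyc O K → 0 < (-1) ^ betti O K * wt O K) ∧ 
        (∀ K, ¬ Cyc O K → wt O K = 0) ∧ 
        (SpanAtMost s D → ∀ 𝓒 : Finset (Finset (Fin k)), Far O X n 𝓒 → 
          ∑ K ∈ 𝓒, wt O K = 0 ∧ 
          ∀ K ∈ 𝓒, Cyc O K → (∃ K₀ ∈ 𝓒, Cyc O K₀ ∧ Even (betti O K₀)) ∧ 
            ∃ K₁ ∈ 𝓒, Cyc O K₁ ∧ Odd (betti O K₁))) ∧ 
      -- (5)
      ((((∀ e, X < 2 * |n e|) ∧ (Cyc O N ∨ Cyc O P)) ∨ 
          (∀ K, K ≠ ∅ → Cyc O K → X < 2 * |∑ e ∈ K, n e|)) → 
        ¬ SpanAtMost s D ∧ ∀ u ≤ s + 1, D.fPoly ≠ (-T 2 - T (-2)) ^ (u - 1))) := by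
  subst hX hN hP
  have hsm : SpanAtMost s D → Pool.Agent.Y463.CD.Small O s n := fspan_iff O s n D hD
  have hneg : ∀ h : ¬ Pool.Agent.Y463.CD.Small O s n, 
      ¬ SpanAtMost s D ∧ ∀ u ≤ s + 1, D.fPoly ≠ (-T 2 - T (-2)) ^ (u - 1) := fun h => 
    ⟨fun h1 => h (hsm h1), fun u hu => 
      Pool.Agent.Q99.ET.not_unlink s D (fun h1 => h ⟨D, hD, h1⟩) u hu⟩
  refine ⟨?_, ?_, ?_, fun hA => ⟨⟨fun K => hA.W_ne K, fun K hK => wt_pos O hk hO K hK, 
    fun K hK => wt_zero O hk hO K hK, ?_⟩, ?_⟩⟩
  · intro hs 𝓒 hC h0
    have h1 := exact_cancel O hk hO s n (hsm hs) 𝓒 hC h0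
    simp only [zf_coef] at h1
    exact h1
  · rintro (⟨K, hK0, hK, hC⟩ | ⟨hn, h | h⟩ | ⟨h1, h2⟩)
    · exact hneg (isolated_ne O hk hO s n K hK0 hK hC)
    · exact hneg (isolated_ne O hk hO s n _ h.1 h.2 (fun K' hK' _ => gap_min n _ hn K' hK'))
    · exact hneg (isolated_ne O hk hO s n _ h.1 h.2 (fun K' hK' _ => gap_max n _ hn K' hK'))
    · exact hneg (cut_isolated O hk hO s n h1 h2)
  · intro hn h1 h2 hs
    exact span_bound O hk hO s n hn h1 h2 (hsm hs)
  · intro hs 𝓒 hC
    have hS : Sep O (3 * O.crossings.length + 6 * k + 2 * s) n 𝓒 := fun K hK K' hK' hc hc' => 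
      hC K hK K' hK' ((hA.W_ne K).2 hc) ((hA.W_ne K').2 hc')
    exact ⟨hA.cluster s n (hsm hs) 𝓒 hS, fun K hK hc => hA.parity s n (hsm hs) 𝓒 hS K hK hc⟩
  · rintro (⟨hn, h | h⟩ | h)
    · exact hneg (hA.neg s n hn h)
    · exact hneg (hA.posi s n hn h)
    · refine hneg (hA.isolated s n ∅ (fun e he => absurd he (Finset.notMem_empty e)) ?_)
      intro K' hc hne
      rw [Finset.sum_empty, zero_sub, abs_neg]
      exact h K' hne hc

end Pool.Agent.Results.MP_42db45_gt.SignedTwists
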